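import Pool.Agent.H45.Canopy

set_option autoImplicit false

open Pool.Agent.H45.Chain

namespace Pool.Agent.Results.MP_868dd6_pr.CubeTransient

/-- A recurrent unimodular random rooted graph with exponential degree tail whose third power is
transient with positive probability. -/
theorem result :
    ∃ (V : Type) (_ : MeasurableSpace V) (_ : Countable V) (_ : MeasurableSingletonClass V)
      (G : SimpleGraph V) (μ : PMF V),
      G.Connected ∧ (∀ v, (G.neighborSet v).Finite) ∧ Unimodular G μ ∧
      (∃ C c : ℝ, 0 < C ∧ 0 < c ∧ ∀ n : ℕ, μ.toMeasure {v | n ≤ (G.neighborSet v).ncard} ≤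
        ENNReal.ofReal (C * Real.exp (-c * n))) ∧
      (∀ v, returnProb G v = 1) ∧
      (∀ v, ((graphPow G 3).neighborSet v).Finite) ∧
      ∃ v, 0 < μ v ∧ returnProb (graphPow G 3) v < 1 :=
  ⟨CV, inferInstance, inferInstance, inferInstance, CG, rootLaw, CG_connected, CG_finite,
    CG_unimodular, ⟨14, Real.log (3 / 2), by norm_num, Real.log_pos (by norm_num), CG_tail⟩,
    recurrent_of_parent CG par rk rk_lt CG_adj CG_finite, finite_pow CG CG_finite 3,
    leaf 0 0, by simp [rootLaw_apply, wtC, leaf], cube_transient⟩

end Pool.Agent.Results.MP_868dd6_pr.CubeTransient
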